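import Pool.Agent.Lib.MP_b07157_agSD.Glob
import Pool.Agent.Lib.MP_b07157_agSA.Main
import Pool.Agent.Lib.MP_b07157_agSB.Main

/-!
# The conjecture along sets where the polynomial is semi-quasi-homogeneous
-/

noncomputable section

namespace MPb07157

open MvPolynomial

variable {n k : ℕ}

theorem SqhAlong.mono {f : MvPolynomial (Fin n) ℂ} {V W : Set (Fin n → ℂ)} {w : Fin k → ℕ} {N : ℕ}
    (h : SqhAlong f W w N) (hVW : V ⊆ W) : SqhAlong f V w N := by
  obtain ⟨hN, hw, a, u, g, h1, h2, h3⟩ := h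
  exact ⟨hN, hw, a, u, g, h1, h2, fun p hp => h3 p (hVW hp)⟩

theorem MonoAlong.of_sqhAlong {f : MvPolynomial (Fin n) ℂ} (hf : f ≠ 0) {W : Set (Fin n → ℂ)}
    {w : Fin k → ℕ} {N : ℕ} (h : SqhAlong f W w N) : MonoAlong f W := by
  intro V hV hVc _ s₀ _ hs1 hser b hb
  have h' : SqhAlong f V w N := h.mono hV
  have hN : (N : ℚ) ≠ 0 := by exact_mod_cast h.1.ne'
  by_cases hs2 : s₀ * N = -∑ j, (w j : ℚ)
  · obtain ⟨p, hp⟩ : V.Nonempty := by
      by_contra hne
      rw [Set.not_nonempty_iff_eq_empty] at hne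
      apply hser
      have h1 := seriesAt_mem_of_ne (f := f) (W := V) hVc hf (fun p hp => by
        rw [hne] at hp
        exact absurd hp (Set.notMem_empty p)) s₀
      exact h1
    have h1 := SqA.root hf h' hp (form_translate p hb)
    have h2 : s₀ = -((∑ j, w j : ℕ) : ℚ) / N := by
      rw [eq_div_iff hN, hs2]
      push_cast
      rfl
    rw [h2, ← h1]
    congr 1
    push_cast
    rfl
  · exact absurd (h'.seriesAt_mem hVc hs1 hs2) hser

end MPb07157
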