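import Pool.Agent.Lib.MP_b07157_agSD.Glob
import Pool.Agent.Lib.MP_b07157_agYC.Core

/-!
# Weighted homogeneous polynomials with a cover by sets along which the conjecture is known
-/

noncomputable section

namespace MPb07157

open MvPolynomial

namespace YC

open YV YW

variable {n : ℕ}

theorem pole_of_wconeM {f : MvPolynomial (Fin n) ℂ} (hf : f ≠ 0) {a : Fin n → ℕ} {D : ℕ}
    (H : WHom f a D) {T : Set (Set (Fin n → ℂ))} (hT : T.Finite) {P : Finset (Fin n → ℂ)}
    (hcov : ∀ p ∈ Cr f, (∃ W ∈ T, p ∈ W) ∨ ∃ q ∈ P, ∃ t : ℂ, p = sc a t q)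
    (h : ∀ W ∈ T, IsConstr W)
    {s₀ : ℚ} (h1 : s₀ ≠ -1) (h2 : ((∑ j, a j : ℕ) : ℚ) + D * s₀ ≠ 0)
    (hreg : ∀ W ∈ T, ∀ V ⊆ W, IsConstr V → (∀ p ∈ V, eval p f = 0) →
      seriesAt f V ∈ regularAt s₀)
    (hp : IsPole (Zmot0 f) s₀) :
    ∃ q ∈ P, q ∈ Cr f ∧ IsPole (Zmot0 (translate q f)) s₀ := by
  classical
  by_contra hcon
  push Not at hcon
  have H0 := wc0_of_wHom H hf
  set S : Finset (Set (Fin n → ℂ)) := (P.filter (· ∈ Cr f)).image (orb a) with hS
  have hSm : ∀ O ∈ S, ∃ q ∈ P, q ∈ Cr f ∧ O = orb a q := by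
    intro O hO
    obtain ⟨q, hq, rfl⟩ := Finset.mem_image.1 hO
    exact ⟨q, (Finset.mem_filter.1 hq).1, (Finset.mem_filter.1 hq).2, rfl⟩
  have hSc : ∀ O ∈ S, IsConstr O := by
    intro O hO
    obtain ⟨q, -, hq, rfl⟩ := hSm O hO
    exact isConstr_orb H.ha hq.1
  set A₁ : Set (Fin n → ℂ) := {p | ∃ O ∈ S, p ∈ O} with hA₁
  have hA₁' : A₁ = ⋃ O ∈ S, O := by
    ext p
    simp [hA₁]
  have hcA₁ : IsConstr A₁ := by
    rw [hA₁']
    exact isConstr_biUnion _ _ hSc
  have hsub : A₁ ⊆ Cr f := by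
    rintro p ⟨O, hO, hp⟩
    obtain ⟨q, -, hq, rfl⟩ := hSm O hO
    exact crit_sc H hq hp
  have hser1 : seriesAt f A₁ ∈ regularAt s₀ := by
    have e1 : seriesAt f A₁ = ∑ O ∈ S, seriesAt f O := by
      rw [hA₁']
      exact seriesAt_biUnion f S (fun O => O) hSc (fun O hO O' hO' hne => by
        obtain ⟨q, -, -, rfl⟩ := hSm O hO
        obtain ⟨q', -, -, rfl⟩ := hSm O' hO'
        exact (orb_eq_or_disjoint a q q').resolve_left hne)
    rw [e1]
    refine sum_mem fun O hO => ?_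
    obtain ⟨q, hqP, hq, rfl⟩ := hSm O hO
    rw [seriesAt_orb H hq]
    refine mul_mem (C_mem_regularAt s₀ _) ?_
    have h3 := hcon q hqP hq
    unfold IsPole at h3
    exact not_not.1 h3
  have hser2 : seriesAt f (Cr f ∩ A₁ᶜ) ∈ regularAt s₀ := by
    refine seriesAt_mem_of_coverM hf ((isConstr_Cr f).inter hcA₁.compl) hT (fun p hp _ => ?_) h
      hreg
    rcases hcov p hp.1 with h3 | ⟨q, hq, t, rfl⟩
    · exact h3
    · exfalso
      apply hp.2
      have ht : t ≠ 0 := by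
        rintro rfl
        apply hp.1.1
        funext i
        simp [sc, zero_pow (H.ha i).ne']
      have hqC : q ∈ Cr f := crit_sc H hp.1 (rw_orb_symm ⟨t, ht, rfl⟩)
      exact ⟨orb a q, Finset.mem_image.2 ⟨q, Finset.mem_filter.2 ⟨hq, hqC⟩, rfl⟩, t, ht, rfl⟩
  have hser : seriesAt f (Cr f) ∈ regularAt s₀ := by
    have e0 : Cr f = A₁ ∪ (Cr f ∩ A₁ᶜ) := by
      rw [Set.union_inter_distrib_left, Set.union_compl_self, Set.inter_univ,
        Set.union_eq_self_of_subset_left hsub]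
    have e1 : seriesAt f (Cr f) = seriesAt f A₁ + seriesAt f (Cr f ∩ A₁ᶜ) := by
      conv_lhs => rw [e0]
      exact seriesAt_union _ hcA₁ ((isConstr_Cr f).inter hcA₁.compl)
        (disjoint_compl_right.mono le_rfl Set.inter_subset_right)
    rw [e1]
    exact add_mem hser1 hser2
  apply hp
  have key : Zmot0 f = (PowerSeries.mk fun m =>
      ∑ p ∈ Finset.range (Sq.Wt a * m), aW f a D (p + 1) m) +
      PowerSeries.mk fun m => ∑ k ∈ Finset.Icc 1 m, if D * k ≤ m then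
        li ^ ((∑ j, a j) * k) * PowerSeries.coeff (m - D * k) (seriesAt f (Cr f)) else 0 := by
    ext m
    rw [map_add, PowerSeries.coeff_mk, PowerSeries.coeff_mk]
    unfold Zmot0
    rw [PowerSeries.coeff_mk, Zcoeff0_eq_C H0 m, LF_self H.hom]
    congr 1
    refine Finset.sum_congr rfl fun k _ => ?_
    by_cases hkm : D * k ≤ m
    · rw [if_pos hkm, if_pos hkm]
      have h3 := conM_eq (fun i => (H.haD i).le) H.hom (isConstr_Cr f) (k := k) (i := m - D * k)
        (L := m) (by omega)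
      rw [Nat.add_sub_cancel' hkm] at h3
      have h4 : seriesAt f (Cr f) = PowerSeries.mk (muW f (Cr f)) := rfl
      rw [h3, h4, PowerSeries.coeff_mk]
    · rw [if_neg hkm, if_neg hkm]
  rw [key]
  exact add_mem (smooth_mem H0 h1 h2) (geo_mem H.hD h2 hser)

theorem smcLoc_wconeM {f : MvPolynomial (Fin n) ℂ} (hf : f ≠ 0) {a : Fin n → ℕ} {D : ℕ}
    (H : WHom f a D) {T : Set (Set (Fin n → ℂ))} (hT : T.Finite) {P : Finset (Fin n → ℂ)}
    (hcov : ∀ p ∈ Cr f, (∃ W ∈ T, p ∈ W) ∨ ∃ q ∈ P, ∃ t : ℂ, p = sc a t q)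
    (h : ∀ W ∈ T, IsConstr W ∧ MonoAlong f W)
    (hP : ∀ q ∈ P, q ∈ Cr f → SmcLoc (translate q f)) (hroot : WRoot f a D) : SmcLoc f := by
  intro s₀ hs hpole b hb
  have hD := H.hD
  have hDQ : (0 : ℚ) < D := by exact_mod_cast hD
  have H0 := wc0_of_wHom H hf
  have h00 : (0 : Fin n →₀ ℕ) ∉ f.support := by
    intro h
    have h1 := H0.low 0 h
    unfold MPb07157.wt at h1
    simp at h1
    omega
  by_cases hs1 : s₀ = -1
  · subst hs1
    exact neg_one_root hf h00 b hb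
  by_cases hs2 : s₀ = -(((∑ j, a j : ℕ) : ℚ) / D)
  · rcases hroot with hc | hc | ⟨hc, hc'⟩ | hc
    · exfalso
      apply hs1
      rw [hs2, hc, div_self hDQ.ne']
    · rcases Nat.eq_zero_or_pos n with hn | hn
      · exfalso
        subst hn
        obtain ⟨v, hv⟩ := MvPolynomial.support_nonempty.2 hf
        apply h00
        rwa [Subsingleton.elim v 0] at hv
      · rw [hs2]
        exact Lct.root_weight H.ha hD hn hf H0.low hc hb
    · rw [hs2]
      have h1 := root_of_linear_typeW hf H.ha H.haD hD H.hom hc hc' hb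
      push_cast at h1 ⊢
      exact h1
    · have h1 := root_of_initial H.ha H.haD hD hf H.hom (h := 0)
        (fun v hv => by simp at hv) (α := ((∑ j, a j : ℕ) : ℂ) / D) ?_ hc (by rwa [add_zero])
      · rw [hs2]
        push_cast at h1 ⊢
        exact h1
      · have h2 : (D : ℂ) ≠ 0 := by exact_mod_cast hD.ne'
        rw [div_mul_cancel₀ _ h2]
        push_cast
        rfl
  have hcand : ((∑ j, a j : ℕ) : ℚ) + D * s₀ ≠ 0 := by
    intro h
    apply hs2
    rw [← neg_div, eq_div_iff hDQ.ne']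
    linarith
  have hbg : IsBernsteinSato f b := isBernsteinSato_of_form_weighted H.ha H.hom hb
  by_contra hcon
  obtain ⟨q, hq, hqC, hpole'⟩ := pole_of_wconeM hf H hT hcov (fun W hW => (h W hW).1) hs1 hcand
    (fun W hW V hV hVc hV0 => by
      by_contra hser
      exact hcon ((h W hW).2 V hV hVc hV0 s₀ hs hs1 hser b hbg)) hpole
  exact hcon (hP q hq hqC s₀ hs hpole' b (form_translate q hbg))

end YC

/-- **Weighted homogeneous polynomials** with critical points in sets along which the conjecture is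
known, and orbits along which the germs are in the class. -/
theorem SmcLoc.of_wconeM {k : ℕ} {f : MvPolynomial (Fin (k + 1)) ℂ} (hf : f ≠ 0)
    {a : Fin (k + 1) → ℕ} {D : ℕ} (H : WHom f a D) {T : Set (Set (Fin (k + 1) → ℂ))}
    (hT : T.Finite) {P : Finset (Fin (k + 1) → ℂ)}
    (hcov : ∀ p, SingPt f p → (∃ W ∈ T, p ∈ W) ∨ ∃ q ∈ P, ∃ t : ℂ, p = fun i => t ^ a i * q i)
    (h : ∀ W ∈ T, IsConstr W ∧ MonoAlong f W)
    {PP : (m : ℕ) → MvPolynomial (Fin m) ℂ → Prop}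
    (hPP : ∀ (m : ℕ) (g : MvPolynomial (Fin m) ℂ), PP m g → g ≠ 0 → coeff 0 g = 0 → SmcLoc g)
    (j : (Fin (k + 1) → ℂ) → Fin (k + 1)) (hj : ∀ q ∈ P, q (j q) = 1)
    (hP : ∀ q ∈ P, PP k (YQ.chartEq f q (j q))) (hroot : WRoot f a D) : SmcLoc f := by
  refine YC.smcLoc_wconeM hf H hT hcov h (fun q hq hqC => ?_) hroot
  have h0 := YC.eval_of_Cr H hqC
  refine YC.smcLoc_section H.ha H.hom hf (hj q hq) h0 ?_
  refine hPP k _ (hP q hq) (YC.gch_ne_zeroW hf H.ha H.hom q (j q)) ?_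
  have h1 := SI.pole_eval_gch f q (j q) (hj q hq)
  rw [h0, MvPolynomial.eval_zero, constantCoeff_eq] at h1
  exact h1

end MPb07157
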