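import Pool.Agent.Lib.MP_b07157_agM.StrHom
import Pool.Agent.Lib.MP_b07157_agW.WS

/-!
# Covers by sets along which the conjecture is known
-/

noncomputable section

namespace MPb07157

open MvPolynomial

variable {n k : ℕ}

/-- The poles `≠ -1` of the zeta functions of `f` at constructible subsets of `W` are roots of the
Bernstein–Sato polynomial of `f`. -/
def MonoAlong (f : MvPolynomial (Fin n) ℂ) (W : Set (Fin n → ℂ)) : Prop :=
  ∀ V ⊆ W, IsConstr V → (∀ p ∈ V, eval p f = 0) → ∀ s₀ : ℚ, s₀ < 0 → s₀ ≠ -1 →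
    seriesAt f V ∉ regularAt s₀ → ∀ b : Polynomial ℂ, IsBernsteinSato f b → b.eval (s₀ : ℂ) = 0

theorem MonoAlong.of_trivAlong {f : MvPolynomial (Fin n) ℂ} (hf : f ≠ 0) {W : Set (Fin n → ℂ)}
    {g : MvPolynomial (Fin k) ℂ} (ht : TrivAlong f W g)
    (hg : g ≠ 0 → coeff 0 g = 0 → SmcLoc g) : MonoAlong f W := by
  intro V hV hVc hV0 s₀ hs _ hser b hb
  by_contra hcon
  refine hser (seriesAt_mem_of_trivAlong hVc (ht.mono hV) ?_)
  rintro ⟨p, hp⟩
  by_contra hpole
  apply hcon
  have ht' : TrivAlong f {p} g := ht.mono (Set.singleton_subset_iff.2 (hV hp))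
  exact hg (ne_zero_of_trivAlong ht' hf) (coeff_zero_of_trivAlong ht' (hV0 p hp)) s₀ hs hpole b
    (form_of_trivAlong ht' hb)

/-- The zeta function of the arcs which start in a set with a cover. -/
theorem seriesAt_mem_of_coverM {f : MvPolynomial (Fin n) ℂ} (hf : f ≠ 0) {A : Set (Fin n → ℂ)}
    (hA : IsConstr A) {T : Set (Set (Fin n → ℂ))} (hT : T.Finite)
    (hcov : ∀ p ∈ A, eval p f = 0 → ∃ W ∈ T, p ∈ W) (h : ∀ W ∈ T, IsConstr W) {s₀ : ℚ}
    (hreg : ∀ W ∈ T, ∀ V ⊆ W, IsConstr V → (∀ p ∈ V, eval p f = 0) →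
      seriesAt f V ∈ regularAt s₀) :
    seriesAt f A ∈ regularAt s₀ := by
  classical
  obtain ⟨V, h1, h2, h3⟩ := exists_disjoint_cover hT h
  have hZ : IsConstr {p : Fin n → ℂ | eval p f = 0} := isConstr_eq_zero f
  have e0 : A = (A ∩ {p | eval p f = 0}ᶜ) ∪ (A ∩ {p | eval p f = 0}) := by
    rw [← Set.inter_union_distrib_left, Set.compl_union_self, Set.inter_univ]
  have e1 : seriesAt f A =
      seriesAt f (A ∩ {p | eval p f = 0}ᶜ) + seriesAt f (A ∩ {p | eval p f = 0}) := by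
    conv_lhs => rw [e0]
    exact seriesAt_union _ (hA.inter hZ.compl) (hA.inter hZ)
      (disjoint_compl_left.mono Set.inter_subset_right Set.inter_subset_right)
  have e2 : seriesAt f (A ∩ {p | eval p f = 0}) =
      ∑ W ∈ hT.toFinset, seriesAt f (V W ∩ (A ∩ {p | eval p f = 0})) := by
    rw [← seriesAt_biUnion]
    · congr 1
      ext p
      simp only [Set.mem_ofPred_eq, Set.mem_iUnion, Set.Finite.mem_toFinset, Set.mem_inter_iff,
        exists_prop]
      constructor
      · rintro ⟨hpA, hp0⟩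
        obtain ⟨W, hW, hpW⟩ := h3 p (hcov p hpA hp0)
        exact ⟨W, hW, hpW, hpA, hp0⟩
      · rintro ⟨_, _, _, hp⟩
        exact hp
    · intro W hW
      rw [Set.Finite.mem_toFinset] at hW
      exact (h1 W hW).1.inter (hA.inter hZ)
    · intro W hW W' hW' hWW'
      rw [Set.Finite.mem_toFinset] at hW hW'
      exact (h2 W hW W' hW' hWW').mono Set.inter_subset_left Set.inter_subset_left
  rw [e1, e2]
  refine add_mem (seriesAt_mem_of_ne (hA.inter hZ.compl) hf (fun p hp => hp.2) s₀)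
    (sum_mem fun W hW => ?_)
  rw [Set.Finite.mem_toFinset] at hW
  exact hreg W hW _ (Set.inter_subset_left.trans (h1 W hW).2) ((h1 W hW).1.inter (hA.inter hZ))
    fun p hp => hp.2.2

/-- **The strong monodromy conjecture, global version**, for polynomials whose zero set is covered by
sets along which it is known. -/
theorem SmcGlob.of_strataM {f : MvPolynomial (Fin n) ℂ} (hf : f ≠ 0) (h0 : coeff 0 f = 0)
    {T : Set (Set (Fin n → ℂ))} (hT : T.Finite) (hcov : ∀ p, eval p f = 0 → ∃ W ∈ T, p ∈ W)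
    (h : ∀ W ∈ T, IsConstr W ∧ MonoAlong f W) : SmcGlob f := by
  intro s₀ hs hpole b hb
  by_cases hs1 : s₀ = -1
  · subst hs1
    have h0' : (0 : Fin n →₀ ℕ) ∉ f.support := by rwa [notMem_support_iff]
    exact (roots_of_form (f := f) (s₀ := -1) fun b hb => neg_one_root hf h0' b hb).1 b hb
  by_contra hcon
  apply hpole
  rw [← seriesAt_univ]
  refine seriesAt_mem_of_coverM hf IsConstr.univ hT (fun p _ hp => hcov p hp)
    (fun W hW => (h W hW).1) fun W hW V hV hVc hV0 => ?_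
  by_contra hser
  exact hcon ((h W hW).2 V hV hVc hV0 s₀ hs hs1 hser b hb)

/-! ### Homogeneous polynomials -/

/-- The poles of the zeta functions of homogeneous polynomials. -/
theorem zmot_mem_of_coneM {f : MvPolynomial (Fin n) ℂ} (hf : f ≠ 0) {d : ℕ} (hd : 0 < d)
    (hh : f.IsHomogeneous d) {T : Set (Set (Fin n → ℂ))}
    (hT : T.Finite) (hcov : ∀ p, p ≠ 0 → eval p f = 0 → ∃ W ∈ T, p ∈ W)
    (h : ∀ W ∈ T, IsConstr W) {s₀ : ℚ} (hs : s₀ ≠ -(n / d))
    (hreg : ∀ W ∈ T, ∀ V ⊆ W, IsConstr V → (∀ p ∈ V, eval p f = 0) →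
      seriesAt f V ∈ regularAt s₀) : Zmot f ∈ regularAt s₀ ∧ Zmot0 f ∈ regularAt s₀ := by
  have hc0 : IsConstr ({0} : Set (Fin n → ℂ)) := isConstr_point 0
  have h1 : seriesAt f {0}ᶜ ∈ regularAt s₀ :=
    seriesAt_mem_of_coverM hf hc0.compl hT (fun p hp hp0 => hcov p hp hp0) h hreg
  have h2 : Zmot f - Zmot0 f = seriesAt f {0}ᶜ := by
    rw [← seriesAt_univ, ← Set.union_compl_self ({0} : Set (Fin n → ℂ)),
      seriesAt_union _ hc0 hc0.compl disjoint_compl_right, seriesAt_point_zero]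
    ring
  exact mem_regularAt_of_isHomogeneous hd hh hs (h2 ▸ h1)

/-- Homogeneous polynomials with the condition `ConeRoot0`. -/
theorem SmcLoc.of_cone0M {f : MvPolynomial (Fin n) ℂ} (hf : f ≠ 0) {d : ℕ} (hd : 0 < d)
    (hh : f.IsHomogeneous d) {T : Set (Set (Fin n → ℂ))}
    (hT : T.Finite) (hcov : ∀ p, p ≠ 0 → eval p f = 0 → ∃ W ∈ T, p ∈ W)
    (h : ∀ W ∈ T, IsConstr W ∧ MonoAlong f W) (hroot : ConeRoot0 f d) : SmcLoc f := by
  intro s₀ hs hpole b hb
  have hbg : IsBernsteinSato f b := isBernsteinSato_of_form_homogeneous hh hb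
  by_cases h1 : s₀ = -(n / d)
  · subst h1
    exact hroot.root hf hd hh hbg hb
  by_cases hs1 : s₀ = -1
  · have h0 : (0 : Fin n →₀ ℕ) ∉ f.support := by
      rw [notMem_support_iff]
      exact hh.coeff_eq_zero (by simp; omega)
    rw [hs1]
    exact neg_one_root hf h0 b hb
  by_contra hcon
  apply hpole
  refine (zmot_mem_of_coneM hf hd hh hT hcov (fun W hW => (h W hW).1) h1
    fun W hW V hV hVc hV0 => ?_).2
  by_contra hser
  exact hcon ((h W hW).2 V hV hVc hV0 s₀ hs hs1 hser b hbg)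

/-- Homogeneous polynomials whose singular points outside the origin lie on finitely many lines, on
which some polynomial vector field which kills the polynomial does not vanish. -/
theorem SmcLoc.of_cone_isoM {f : MvPolynomial (Fin n) ℂ} (hf : f ≠ 0) {d : ℕ} (hd : 0 < d)
    (hh : f.IsHomogeneous d) {T : Set (Set (Fin n → ℂ))}
    (hT : T.Finite) (hcov : ∀ p, p ≠ 0 → eval p f = 0 → ∃ W ∈ T, p ∈ W)
    (h : ∀ W ∈ T, IsConstr W ∧ MonoAlong f W) (hiso : IsoLines f) : SmcLoc f := by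
  rcases Nat.lt_or_ge 1 d with hd2 | hd2
  swap
  · have hd1 : d = 1 := by omega
    subst hd1
    exact smcLoc_linear hf hh
  obtain ⟨B, hB⟩ := hiso
  by_cases hNS : NS f
  · refine SmcLoc.of_cone0M hf hd hh hT hcov h (Or.inr (Or.inl ⟨?_, hNS⟩))
    rcases n with _ | m
    · exfalso
      apply hf
      have h1 : f = C (coeff 0 f) := by
        ext v
        rw [coeff_C, if_pos (Subsingleton.elim _ _)]
        congr 1
        exact Subsingleton.elim _ _
      rw [h1, hh.coeff_eq_zero (by simp; omega), map_zero]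
    · exact linType_of_isolated hd2 hh (fun p hp0 hp1 => (hB p hp0 hp1).2)
        (fun p hp0 hp1 => (hB p hp0 hp1).1)
  intro s₀ hs hpole b hb
  have hbg : IsBernsteinSato f b := isBernsteinSato_of_form_homogeneous hh hb
  by_cases hs1 : s₀ = -1
  · have h0 : (0 : Fin n →₀ ℕ) ∉ f.support := by
      rw [notMem_support_iff]
      exact hh.coeff_eq_zero (by simp; omega)
    rw [hs1]
    exact neg_one_root hf h0 b hb
  by_cases h1 : s₀ = -(n / d)
  · obtain ⟨p, hp0, hpf, hp1, hpp⟩ := exists_pole_of_not_NS hd hh hNS B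
      (fun p hp0 hp1 => (hB p hp0 hp1).2) hs1 h1 (Or.inr hpole)
    obtain ⟨W, hW, hpW⟩ := hcov p hp0 hpf
    refine (h W hW).2 {p} (Set.singleton_subset_iff.2 hpW) (isConstr_point p) ?_ s₀ hs hs1 ?_ b hbg
    · intro x hx
      rw [Set.mem_singleton_iff.1 hx]
      exact hpf
    · rw [seriesAt_singleton]
      exact hpp
  by_contra hcon
  apply hpole
  refine (zmot_mem_of_coneM hf hd hh hT hcov (fun W hW => (h W hW).1) h1
    fun W hW V hV hVc hV0 => ?_).2
  by_contra hser
  exact hcon ((h W hW).2 V hV hVc hV0 s₀ hs hs1 hser b hbg)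

/-- **Homogeneous polynomials** with the condition `ConeRoot`, covered outside the origin by sets
along which the conjecture is known. -/
theorem SmcLoc.of_coneM {f : MvPolynomial (Fin n) ℂ} (hf : f ≠ 0) {d : ℕ} (hd : 0 < d)
    (hh : f.IsHomogeneous d) {T : Set (Set (Fin n → ℂ))}
    (hT : T.Finite) (hcov : ∀ p, p ≠ 0 → eval p f = 0 → ∃ W ∈ T, p ∈ W)
    (h : ∀ W ∈ T, IsConstr W ∧ MonoAlong f W) (hroot : ConeRoot f d) : SmcLoc f := by
  rcases hroot with h1 | h1
  · exact SmcLoc.of_cone0M hf hd hh hT hcov h h1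
  · exact SmcLoc.of_cone_isoM hf hd hh hT hcov h h1

end MPb07157
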